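import Mathlib
import Pool.Agent.Q157.DC.Stm

/-!
# Project DC: union bound for bad event 2
-/

set_option autoImplicit false
set_option linter.unusedVariables false

open Finset Filter Topology
open scoped symmDiff

namespace Pool.Agent.Q144.DC

open Pool.Agent.Q157.DC

theorem bad2 (h1 : S_basic) (h2 : S_good) : S_bad2 := by
  classical
  intro pv pe a1 a2 a3 a4 δ m hδ hδ'
  obtain ⟨K, hK⟩ := exists_nat_ge (32 / δ)
  have hη : (0 : ℝ) < (1 / 32) ^ K := by positivity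
  obtain ⟨n₀, hn₀⟩ := h2 pv pe a1 a2 a3 a4 δ ((1 / 32) ^ K) m hδ hδ' hη
  have hrt : ∀ n, ∀ i, 0 ≤ rt pv pe n i ∧ rt pv pe n i ≤ 1 := by
    intro n i
    rcases i with v | e
    · exact ⟨a1.le, a2⟩
    · exact ⟨a3.le, a4⟩
  have hev : ∀ᶠ n : ℕ in atTop, Pr (rt pv pe n) (Bad2 δ m) ≤ (1 / 2 : ℝ) ^ n := by
    filter_upwards [eventually_ge_atTop (max n₀ ⌈32 / δ⌉₊)] with n hn
    have hn1 : n₀ ≤ n := (le_max_left _ _).trans hn
    have hn2 : (32 / δ : ℝ) ≤ n := (Nat.le_ceil _).trans (by exact_mod_cast (le_max_right _ _).trans hn)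
    have hδn : 32 ≤ δ * n := by
      rw [div_le_iff₀ hδ] at hn2
      linarith
    have hfl : δ * n / 32 ≤ (⌊δ * n / 16⌋₊ : ℝ) := by
      have := Nat.lt_floor_add_one (δ * n / 16)
      linarith
    have hKn : n ≤ K * ⌊δ * n / 16⌋₊ := by
      have e1 : (n : ℝ) ≤ (K : ℝ) * (⌊δ * n / 16⌋₊ : ℝ) := by
        calc (n : ℝ) = (32 / δ) * (δ * n / 32) := by field_simp
          _ ≤ (K : ℝ) * (⌊δ * n / 16⌋₊ : ℝ) := by
              apply mul_le_mul hK hfl (by positivity) (by positivity)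
      exact_mod_cast e1
    have hb := h1 (rt pv pe n) (hrt n)
    obtain ⟨b1, b2, b3, b4, b5, b6, b7, b8⟩ := hb
    have hF := b7 (univ.filter (fun t : Vx n × Vx n × Finset (Fin n) × Finset (Fin n) =>
        Adm δ t.1 t.2.1 t.2.2.1 t.2.2.2))
      (fun t ω => ¬ Good m ω t.1 t.2.1 t.2.2.1 t.2.2.2)
    have hle := b4 (Bad2 δ m) (fun ω => ∃ t ∈ univ.filter
        (fun t : Vx n × Vx n × Finset (Fin n) × Finset (Fin n) =>
          Adm δ t.1 t.2.1 t.2.2.1 t.2.2.2), ¬ Good m ω t.1 t.2.1 t.2.2.1 t.2.2.2) (by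
      rintro ω ⟨x, y, I, I', hA, hG⟩
      exact ⟨(x, y, I, I'), mem_filter.2 ⟨mem_univ _, hA⟩, hG⟩)
    refine (hle.trans hF).trans ?_
    have hone : ∀ t ∈ univ.filter (fun t : Vx n × Vx n × Finset (Fin n) × Finset (Fin n) =>
        Adm δ t.1 t.2.1 t.2.2.1 t.2.2.2),
        Pr (rt pv pe n) (fun ω => ¬ Good m ω t.1 t.2.1 t.2.2.1 t.2.2.2) ≤ (1 / 32 : ℝ) ^ n := by
      intro t ht
      refine (hn₀ n hn1 _ _ _ _ (mem_filter.1 ht).2).trans ?_
      rw [← pow_mul]
      exact pow_le_pow_of_le_one (by norm_num) (by norm_num) hKn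
    refine (sum_le_sum hone).trans ?_
    rw [sum_const, nsmul_eq_mul]
    have hcard : ((univ.filter (fun t : Vx n × Vx n × Finset (Fin n) × Finset (Fin n) =>
        Adm δ t.1 t.2.1 t.2.2.1 t.2.2.2)).card : ℝ) ≤ 16 ^ n := by
      have e1 : (univ.filter (fun t : Vx n × Vx n × Finset (Fin n) × Finset (Fin n) =>
        Adm δ t.1 t.2.1 t.2.2.1 t.2.2.2)).card ≤
          Fintype.card (Vx n × Vx n × Finset (Fin n) × Finset (Fin n)) := card_le_univ _
      have e2 : Fintype.card (Vx n × Vx n × Finset (Fin n) × Finset (Fin n)) = 16 ^ n := by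
        rw [Fintype.card_prod, Fintype.card_prod, Fintype.card_prod, Fintype.card_finset,
          Fintype.card_fin, ← mul_pow, ← mul_pow, ← mul_pow]
        norm_num
      rw [e2] at e1
      exact_mod_cast e1
    calc _ ≤ (16 : ℝ) ^ n * (1 / 32 : ℝ) ^ n := by
          apply mul_le_mul_of_nonneg_right hcard (by positivity)
      _ = (1 / 2 : ℝ) ^ n := by
          rw [← mul_pow]
          norm_num
  exact squeeze_zero' (Eventually.of_forall fun n =>
    ((h1 (rt pv pe n) (hrt n)).2.2.1 _).1) hev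
    (tendsto_pow_atTop_nhds_zero_of_lt_one (by norm_num) (by norm_num))

end Pool.Agent.Q144.DC
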