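import Mathlib
import Pool.Agent.Q157.DC.Stm

/-!
# Project DC: open geodesics, rich vertices
-/

set_option autoImplicit false
set_option linter.unusedVariables false

open Finset Filter Topology
open scoped symmDiff

namespace Pool.Agent.Q144.DC

open Pool.Agent.Q157.DC

theorem card_tri {n : ℕ} (A B C : Vx n) : (A ∆ C).card ≤ (A ∆ B).card + (B ∆ C).card := by
  have h : A ∆ C ⊆ A ∆ B ∪ B ∆ C := symmDiff_triangle A B C
  exact (card_le_card h).trans (card_union_le _ _)

theorem steps {n : ℕ} (f : ℕ → Vx n) (k : ℕ) (h : ∀ l < k, nb (f l) (f (l + 1))) (a : ℕ) :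
    ∀ d, a + d ≤ k → (f a ∆ f (a + d)).card ≤ d := by
  intro d
  induction d with
  | zero =>
    intro _
    rw [Nat.add_zero, symmDiff_self]
    exact le_rfl
  | succ d ih =>
    intro hd
    have h1 := ih (by omega)
    have h2 := h (a + d) (by omega)
    have h3 := card_tri (f a) (f (a + d)) (f (a + d + 1))
    unfold nb at h2
    rw [h2] at h3
    show (f a ∆ f (a + d + 1)).card ≤ d + 1
    omega

theorem sub_of_card {n : ℕ} (A B : Vx n) (h : A.card + B.card ≤ (A ∆ B).card) : A ⊆ A ∆ B := by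
  have h1 : (A ∆ B).card = (A \ B).card + (B \ A).card := by
    have : A ∆ B = (A \ B) ∪ (B \ A) := rfl
    rw [this, card_union_of_disjoint disjoint_sdiff_sdiff]
  have h2 := card_sdiff_add_card_inter A B
  have h3 := card_sdiff_add_card_inter B A
  have h4 : (A ∩ B).card = 0 := by omega
  rw [card_eq_zero] at h4
  intro x hx
  rw [mem_symmDiff]
  left
  refine ⟨hx, fun hB => ?_⟩
  have : x ∈ A ∩ B := mem_inter.2 ⟨hx, hB⟩
  rw [h4] at this
  exact absurd this (notMem_empty x)

theorem path_iv {n : ℕ} {u w : Vx n} (f : ℕ → Vx n) (h0 : f 0 = u) (h1 : f (u ∆ w).card = w)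
    (h : ∀ l < (u ∆ w).card, nb (f l) (f (l + 1))) : ∀ l ≤ (u ∆ w).card, f l ∈ Iv u w := by
  intro l hl
  have e1 := steps f _ h 0 l (by omega)
  rw [Nat.zero_add, h0] at e1
  have e2 := steps f _ h l ((u ∆ w).card - l) (by omega)
  rw [Nat.add_sub_cancel' hl, h1] at e2
  have e3 : (u ∆ f l) ∆ (f l ∆ w) = u ∆ w := by
    rw [symmDiff_assoc, symmDiff_symmDiff_cancel_left]
  have e4 := sub_of_card (u ∆ f l) (f l ∆ w) (by rw [e3]; omega)
  rw [e3] at e4
  exact e4

theorem geo_dep : S_geo_dep := by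
  intro n u w
  have key : ∀ ω ω' : Om n, (∀ i ∈ reg (Iv u w), ω i = ω' i) → Geo ω u w → Geo ω' u w := by
    rintro ω ω' h ⟨f, h0, h1, h2, h3⟩
    have hm := path_iv f h0 h1 (fun l hl => (h2 l hl).1)
    refine ⟨f, h0, h1, fun l hl => ⟨(h2 l hl).1, ?_⟩, fun l hl hl' => ?_⟩
    · have := (h2 l hl).2
      unfold opn at this ⊢
      rw [← h _ (Or.inr ⟨f l, hm l hl.le, f (l + 1), hm (l + 1) hl, rfl⟩)]
      exact this
    · have := h3 l hl hl'
      unfold pres at this ⊢
      rw [← h _ (Or.inl ⟨f l, hm l hl'.le, rfl⟩)]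
      exact this
  intro ω ω' h
  exact propext ⟨key ω ω' h, key ω' ω (fun i hi => (h i hi).symm)⟩

theorem geo_dist : S_geo_dist := by
  rintro n ω u w hu hw ⟨f, h0, h1, h2, h3⟩
  have hp : ∀ l ≤ (u ∆ w).card, pres ω (f l) := by
    intro l hl
    rcases Nat.eq_zero_or_pos l with h | h
    · rw [h, h0]; exact hu
    · rcases hl.lt_or_eq with h' | h'
      · exact h3 l h h'
      · rw [h', h1]; exact hw
  have hW : ∀ l ≤ (u ∆ w).card, ∃ p : (hG ω).Walk u (f l), p.length = l := by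
    intro l
    induction l with
    | zero =>
      intro _
      rw [h0]
      exact ⟨SimpleGraph.Walk.nil, rfl⟩
    | succ l ih =>
      intro hl
      obtain ⟨p, hpl⟩ := ih (by omega)
      have hadj : (hG ω).Adj (f l) (f (l + 1)) :=
        ⟨(h2 l (by omega)).1, hp l (by omega), hp (l + 1) hl, (h2 l (by omega)).2⟩
      refine ⟨p.append (SimpleGraph.Walk.cons hadj SimpleGraph.Walk.nil), ?_⟩
      rw [SimpleGraph.Walk.length_append, hpl]
      rfl
  have h5 := hW _ le_rfl
  rw [h1] at h5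
  obtain ⟨p, hpl⟩ := h5
  exact ⟨⟨p⟩, (SimpleGraph.dist_le p).trans hpl.le⟩

end Pool.Agent.Q144.DC
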