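import Mathlib
import Pool.Agent.Q157.DC.Stm

/-!
# Project DC: rich vertices are joined by short paths
-/

set_option autoImplicit false
set_option linter.unusedVariables false

open Finset Filter Topology
open scoped symmDiff

namespace Pool.Agent.Q144.DC

open Pool.Agent.Q157.DC

theorem rd {V : Type} (G : SimpleGraph V) {u v w : V} {a b : ℕ}
    (h1 : G.Reachable u v ∧ G.dist u v ≤ a) (h2 : G.Reachable v w ∧ G.dist v w ≤ b) :
    G.Reachable u w ∧ G.dist u w ≤ a + b := by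
  obtain ⟨p, hp⟩ := h1.1.exists_walk_length_eq_dist
  obtain ⟨q, hq⟩ := h2.1.exists_walk_length_eq_dist
  refine ⟨h1.1.trans h2.1, (SimpleGraph.dist_le (p.append q)).trans ?_⟩
  rw [SimpleGraph.Walk.length_append, hp, hq]
  exact Nat.add_le_add h1.2 h2.2

theorem ra {V : Type} (G : SimpleGraph V) {u v : V} (h : G.Adj u v) :
    G.Reachable u v ∧ G.dist u v ≤ 1 :=
  ⟨h.reachable, (SimpleGraph.dist_eq_one_iff_adj.2 h).le⟩

theorem op_adj {n : ℕ} (ω : Om n) (x : Vx n) (hx : pres ω x) {a : Fin n} (ha : a ∈ op ω x) :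
    pres ω (x ∆ {a}) ∧ (hG ω).Adj x (x ∆ {a}) := by
  simp only [op, mem_filter, mem_univ, true_and] at ha
  refine ⟨ha.1, ?_, hx, ha.1, ha.2⟩
  unfold nb
  rw [symmDiff_symmDiff_cancel_left, card_singleton]

theorem adm {n : ℕ} (δ : ℝ) (hδ : 0 < δ) (x y : Vx n) (X Y : Finset (Fin n))
    (hX : δ * n ≤ (X.card : ℝ)) (hY : δ * n ≤ (Y.card : ℝ)) :
    ∃ I I' : Finset (Fin n), Adm δ x y I I' ∧ I ⊆ X ∧ I' ⊆ Y := by
  have hn0 : (0 : ℝ) ≤ δ * n := by positivity
  have hMle : ((⌊δ * n / 16⌋₊ : ℕ) : ℝ) ≤ δ * n / 16 := Nat.floor_le (by positivity)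
  unfold Adm
  generalize ⌊δ * n / 16⌋₊ = M at hMle
  by_cases hc : (1 - δ / 2) * n ≤ ((x ∆ y).card : ℝ)
  · have key : ∀ Z : Finset (Fin n), δ * n ≤ (Z.card : ℝ) → 8 * M ≤ (Z ∩ (x ∆ y)).card := by
      intro Z hZ
      have e1 := card_union_add_card_inter Z (x ∆ y)
      have e2 : (Z ∪ (x ∆ y)).card ≤ n := by
        have := card_le_univ (Z ∪ (x ∆ y))
        rwa [Fintype.card_fin] at this
      have e3 : ((Z ∪ (x ∆ y)).card : ℝ) + ((Z ∩ (x ∆ y)).card : ℝ) =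
          (Z.card : ℝ) + ((x ∆ y).card : ℝ) := by exact_mod_cast e1
      have e4 : ((Z ∪ (x ∆ y)).card : ℝ) ≤ n := by exact_mod_cast e2
      have e5 : (8 * M : ℝ) ≤ ((Z ∩ (x ∆ y)).card : ℝ) := by linarith
      exact_mod_cast e5
    obtain ⟨I, hI, hIc⟩ := exists_subset_card_eq (show M ≤ (X ∩ (x ∆ y)).card by
      have := key X hX; omega)
    obtain ⟨I', hI', hIc'⟩ := exists_subset_card_eq (show M ≤ ((Y ∩ (x ∆ y)) \ I).card by
      have := key Y hY
      have h2 := le_card_sdiff I (Y ∩ (x ∆ y))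
      omega)
    refine ⟨I, I', ⟨hIc, hIc', ?_, Or.inl ⟨hc, hI.trans inter_subset_right,
      hI'.trans (sdiff_subset.trans inter_subset_right)⟩⟩, hI.trans inter_subset_left,
      hI'.trans (sdiff_subset.trans inter_subset_left)⟩
    exact (disjoint_sdiff.mono_right hI')
  · have h16 : ∀ Z : Finset (Fin n), δ * n ≤ (Z.card : ℝ) → 16 * M ≤ Z.card := by
      intro Z hZ
      have e5 : (16 * M : ℝ) ≤ (Z.card : ℝ) := by linarith
      exact_mod_cast e5
    obtain ⟨I, hI, hIc⟩ := exists_subset_card_eq (show M ≤ X.card by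
      have := h16 X hX; omega)
    have h2 := le_card_sdiff I Y
    have h3 := card_sdiff_add_card_inter (Y \ I) (x ∆ y)
    have h4 := h16 Y hY
    rcases le_or_gt M ((Y \ I) ∩ (x ∆ y)).card with h5 | h5
    · obtain ⟨I', hI', hIc'⟩ := exists_subset_card_eq h5
      refine ⟨I, I', ⟨hIc, hIc', ?_, Or.inr ⟨not_le.1 hc, Or.inl
        (hI'.trans inter_subset_right)⟩⟩, hI, hI'.trans (inter_subset_left.trans sdiff_subset)⟩
      exact (disjoint_sdiff.mono_right (hI'.trans inter_subset_left))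
    · obtain ⟨I', hI', hIc'⟩ := exists_subset_card_eq
        (show M ≤ ((Y \ I) \ (x ∆ y)).card by omega)
      refine ⟨I, I', ⟨hIc, hIc', ?_, Or.inr ⟨not_le.1 hc, Or.inr ?_⟩⟩, hI,
        hI'.trans (sdiff_subset.trans sdiff_subset)⟩
      · exact (disjoint_sdiff.mono_right (hI'.trans sdiff_subset))
      · exact (disjoint_sdiff.symm.mono_left hI')

theorem rich (h : S_geo_dist) : S_rich := by
  intro δ m hδ hδ'
  refine ⟨0, fun n _ ω hb x y hx hy px py => ?_⟩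
  unfold poor at px py
  rw [not_lt] at px py
  obtain ⟨I, I', hA, hI, hI'⟩ := adm δ hδ x y (op ω x) (op ω y) px py
  have hG : Good m ω x y I I' := by
    by_contra hc
    exact hb ⟨x, y, I, I', hA, hc⟩
  obtain ⟨a, ha, b, hb', v, z, ⟨g1, g2, g3, pv, pz⟩, hl⟩ := hG
  obtain ⟨pa, aa⟩ := op_adj ω x hx (hI ha)
  obtain ⟨pb, ab⟩ := op_adj ω y hy (hI' hb')
  have k1 := ra _ aa
  have k2 := h n ω _ _ pa pv g1
  have k3 := h n ω _ _ pv pz g2
  have k4 := h n ω _ _ pz pb g3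
  have k5 := ra _ ab.symm
  have k := rd _ (rd _ (rd _ (rd _ k1 k2) k3) k4) k5
  refine ⟨k.1, k.2.trans ?_⟩
  omega

end Pool.Agent.Q144.DC
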