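import Mathlib
import Pool.Agent.Q157.DC.Stm
import Pool.Agent.Q144.DC.Rich

/-!
# Project DC: geometry of pendant paths, bad event 2, lower bound
-/

set_option autoImplicit false
set_option linter.unusedVariables false

open Finset Filter Topology
open scoped symmDiff

namespace Pool.Agent.Q144.DC

open Pool.Agent.Q157.DC

/-- the set of the first `l` directions -/
noncomputable def Ad {n m : ℕ} (i : Fin m ↪ Fin n) (l : ℕ) : Finset (Fin n) :=
  (univ.filter (fun j : Fin m => (j : ℕ) < l)).map i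

theorem Ad_mono {n m : ℕ} (i : Fin m ↪ Fin n) {l l' : ℕ} (h : l ≤ l') : Ad i l ⊆ Ad i l' := by
  unfold Ad
  rw [map_subset_map]
  intro j hj
  rw [mem_filter] at hj ⊢
  exact ⟨hj.1, hj.2.trans_le h⟩

theorem Ad_card {n m : ℕ} (i : Fin m ↪ Fin n) {l : ℕ} (h : l ≤ m) : (Ad i l).card = l := by
  unfold Ad
  rw [card_map, Fin.card_filter_val_lt]
  exact min_eq_right h

theorem Ad_succ {n m : ℕ} (i : Fin m ↪ Fin n) (l : Fin m) :
    Ad i ((l : ℕ) + 1) = Ad i l ∆ {i l} := by
  ext a
  simp only [Ad, Finset.mem_map, mem_filter, mem_univ, true_and, mem_symmDiff, mem_singleton]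
  constructor
  · rintro ⟨j, hj, rfl⟩
    rcases (Nat.lt_succ_iff.1 hj).lt_or_eq with h | h
    · left
      refine ⟨⟨j, h, rfl⟩, fun h' => ?_⟩
      have := i.injective h'
      rw [this] at h
      exact lt_irrefl _ h
    · right
      have hjl : j = l := Fin.ext h
      refine ⟨by rw [hjl], ?_⟩
      rintro ⟨j', hj', h'⟩
      have := i.injective h'
      rw [this, hjl] at hj'
      exact lt_irrefl _ hj'
  · rintro (⟨⟨j, hj, rfl⟩, _⟩ | ⟨rfl, _⟩)
    · exact ⟨j, by omega, rfl⟩
    · exact ⟨l, by omega, rfl⟩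

theorem ypt_succ {n m : ℕ} (y : Vx n) (i : Fin m ↪ Fin n) (l : Fin m) :
    ypt y i ((l : ℕ) + 1) = ypt y i l ∆ {i l} := by
  have : ypt y i ((l : ℕ) + 1) = y ∆ Ad i ((l : ℕ) + 1) := rfl
  rw [this, Ad_succ, ← symmDiff_assoc]
  rfl

theorem ypt_diff {n m : ℕ} (y : Vx n) (i : Fin m ↪ Fin n) (l l' : ℕ) :
    ypt y i l ∆ ypt y i l' = Ad i l ∆ Ad i l' := by
  show (y ∆ Ad i l) ∆ (y ∆ Ad i l') = Ad i l ∆ Ad i l'
  rw [symmDiff_symmDiff_symmDiff_comm, symmDiff_self, bot_symmDiff]

theorem ypt' : S_ypt := by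
  intro n m y i
  have hc : ∀ l l', l ≤ l' → l' ≤ m → (ypt y i l ∆ ypt y i l').card = l' - l := by
    intro l l' h h'
    rw [ypt_diff, symmDiff_of_le (Ad_mono i h), card_sdiff_of_subset (Ad_mono i h),
      Ad_card i h', Ad_card i (h.trans h')]
  refine ⟨?_, hc, ?_, ?_⟩
  · show y ∆ Ad i 0 = y
    have : Ad i 0 = ∅ := by rw [← card_eq_zero]; exact Ad_card i (Nat.zero_le _)
    rw [this]
    exact symmDiff_bot y
  · intro l l' hl hl' h
    rcases le_total l l' with h1 | h1
    · have := hc l l' h1 hl'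
      rw [h, symmDiff_self] at this
      have h3 : (⊥ : Finset (Fin n)).card = 0 := rfl
      omega
    · have := hc l' l h1 hl
      rw [h, symmDiff_self] at this
      have h3 : (⊥ : Finset (Fin n)).card = 0 := rfl
      omega
  · intro i' h
    ext j
    have h1 := ypt_succ y i j
    have h2 := ypt_succ y i' j
    have h3 := h j j.2.le
    have h4 := h ((j : ℕ) + 1) j.2
    rw [h1, h2, h3] at h4
    have h5 := symmDiff_right_injective _ h4
    rw [singleton_inj] at h5
    rw [h5]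

theorem ea_poor (h : S_ypt) : S_EA_poor := by
  classical
  intro n m ω α hE l hl
  obtain ⟨hp, ho, hcl, hc⟩ := hE
  have hsub : ((op ω (ypt α.1 α.2 l)).image (fun j => ypt α.1 α.2 l ∆ {j})) ⊆
      {ypt α.1 α.2 (l + 1), ypt α.1 α.2 (l - 1)} := by
    intro v hv
    rw [mem_image] at hv
    obtain ⟨j, hj, rfl⟩ := hv
    simp only [op, mem_filter, mem_univ, true_and] at hj
    rw [mem_insert, mem_singleton]
    by_contra hcon
    rw [not_or] at hcon
    refine hcl l hl _ ?_ hcon.1 (fun l' hl' => ?_) hj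
    · unfold nb
      rw [symmDiff_symmDiff_cancel_left, card_singleton]
    · have : l' = l - 1 := by omega
      rw [this]
      exact hcon.2
  have hinj : Function.Injective (fun j : Fin n => ypt α.1 α.2 l ∆ {j}) := by
    intro a b hab
    have := symmDiff_right_injective _ hab
    rwa [singleton_inj] at this
  have h1 := card_le_card hsub
  rw [card_image_of_injective _ hinj] at h1
  exact h1.trans card_le_two

theorem lower (h1 : S_ypt) (h2 : S_EA_poor) (h3 : S_EA_dist) : S_lower := by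
  classical
  intro δ m hδ hδ' hm
  refine ⟨max (m + 1) (⌈2 / δ⌉₊ + 1), fun n hn ω hb hr hα => ?_⟩
  obtain ⟨α, hE⟩ := hα
  have hnm : m < n := (le_max_left _ _).trans hn
  have hn2 : ⌈2 / δ⌉₊ + 1 ≤ n := (le_max_right _ _).trans hn
  have hδn : 2 < δ * n := by
    have e1 : 2 / δ ≤ (⌈2 / δ⌉₊ : ℝ) := Nat.le_ceil _
    have e2 : ((⌈2 / δ⌉₊ : ℝ)) + 1 ≤ n := by exact_mod_cast hn2
    have e3 : 2 / δ < n := by linarith
    rw [div_lt_iff₀ hδ] at e3
    linarith
  have hym : pres ω (ypt α.1 α.2 m) := hE.1 m le_rfl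
  have hyc : pres ω (ypt α.1 α.2 m)ᶜ := hE.2.2.2
  have hpoor : ∀ l < m, poor δ ω (ypt α.1 α.2 l) := by
    intro l hl
    have := h2 n m ω α hE l hl
    unfold poor
    have h' : ((op ω (ypt α.1 α.2 l)).card : ℝ) ≤ 2 := by exact_mod_cast this
    linarith
  obtain ⟨g0, g1, g2, g3⟩ := h1 n m α.1 α.2
  have hd : ∀ l ≤ m, (ypt α.1 α.2 m ∆ ypt α.1 α.2 l).card = m - l := by
    intro l hl
    rw [symmDiff_comm]
    exact g1 l m hl le_rfl
  have hcomp : (ypt α.1 α.2 m ∆ (ypt α.1 α.2 m)ᶜ).card = n := by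
    rw [symmDiff_compl_self]
    exact Finset.card_fin n
  have key : ∀ s : Vx n, (∀ l < m, s ≠ ypt α.1 α.2 l) → near (4 * m) (ypt α.1 α.2 m) s →
      ¬ poor δ ω s := by
    intro s hs hsn hp
    apply hb
    refine ⟨ypt α.1 α.2 m, insert s ((range m).image (ypt α.1 α.2)), ?_, ?_, ?_⟩
    · rw [card_insert_of_notMem, card_image_of_injOn, card_range]
      · intro a ha b hb' hab
        exact g2 a b (mem_range.1 ha).le (mem_range.1 hb').le hab
      · intro hmem
        rw [mem_image] at hmem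
        obtain ⟨l, hl, h⟩ := hmem
        exact hs l (mem_range.1 hl) h.symm
    · intro t ht
      rw [mem_insert, mem_image] at ht
      rcases ht with rfl | ⟨l, hl, rfl⟩
      · exact hsn
      · left
        rw [hd l (mem_range.1 hl).le]
        omega
    · intro t ht
      rw [mem_insert, mem_image] at ht
      rcases ht with rfl | ⟨l, hl, rfl⟩
      · exact hp
      · exact hpoor l (mem_range.1 hl)
  have r1 : ¬ poor δ ω (ypt α.1 α.2 m) := by
    refine key _ (fun l hl h => ?_) (Or.inl ?_)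
    · have := g2 m l le_rfl hl.le h
      omega
    · rw [hd m le_rfl]
      omega
  have r2 : ¬ poor δ ω (ypt α.1 α.2 m)ᶜ := by
    refine key _ (fun l hl h => ?_) (Or.inr ?_)
    · have := hd l hl.le
      rw [← h, hcomp] at this
      omega
    · rw [hcomp]
      omega
  have q := hr _ _ hym hyc r1 r2
  rw [hcomp, max_eq_left (Nat.sub_le n (2 * m))] at q
  obtain ⟨q1, q2, q3⟩ := h3 n m hnm ω α hE
  have q4 := rd _ ⟨q1, q2⟩ q
  refine ⟨_, _, hE.1 0 (Nat.zero_le _), hyc, q4.1, ?_⟩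
  have := q3 q4.1
  omega

end Pool.Agent.Q144.DC
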